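import Pool.Agent.N671.DA.Tup
import Pool.Agent.Results.MP_154526_nt.MultiplicativeValues

/-!
# MP_154526_nt: multiple zeta values with arguments given by the best approximation vectors of systems of linear forms

A pattern in `k` variables is a list of letters `b + u_1 s_1 + ... + u_k s_k` with natural numbers `b`, `u_j`; at a
tuple `s` of natural numbers it gives an index. The first letters may be constant, of arbitrary weight, such as in
`ζ(5, 1, s_1, 3, s_1 + s_2)`. Let `Z` be a countable set of complex numbers, for instance the field generated by `π`, `log 2`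
and all multiple zeta values.

Let `α` be a real matrix with `k` rows and `n` columns, `β` in `ℝ^n` and `τ > 0`. We consider the integer vectors
`v = (v_1, ..., v_k)` with `‖(v α)_j - β_j‖ ≤ c |v| ^ (-τ)` for `j = 1, ..., n`, `‖x‖` the distance to the nearest integer and
`|v|` the maximum norm; for `β = 0`, `c = 1` and `τ = k / n` they include all best approximation vectors of the system of the
linear forms `v α`, by the theorem of Minkowski; for `k = 1` they include the denominators of all best simultaneous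
approximations of `α_1, ..., α_n` (the denominators of the convergents for `n = 1`). We prove: for all `α` outside ONE set of
Hausdorff dimension at most `(k - 1) n + (n + k - 1) / (1 + τ)`, less than `k n` for `τ ≥ k / n`, and so for almost all `α`, for
all families `w_1, ..., w_r` of admissible patterns in `k` variables, all `x_1, ..., x_t` in `Z`, all `D`, `κ`, `C` and `c`, for
all large `v` of this kind and all `T` with `T ≤ |v_i| ≤ κ T` for all `i`, EVERY polynomial relation of degree at most `D` with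
integer coefficients of absolute value at most `C ^ T` between the `x_j` and the multiple zeta values of the patterns at
`s = (|v_1|, ..., |v_k|)` is a consequence of the stuffle product and of the algebraic relations between the `x_j` and the
multiple zeta values of the fronts (the constant first letters of the patterns).

The best approximation vectors are a very sparse sequence, about `log T` vectors of norm at most `T`, and so this does not
follow from the number `K N ^ (k - 1)` of the exceptional tuples in `[N, κ N] ^ k` (the theorem `ExceptionalTuples` of this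
page, helper599), if `k > 1`. Proof. The matrices `α` with `‖(v α)_j - β_j‖ ≤ c |v| ^ (-τ)` form neighbourhoods of parallel
affine subspaces, covered by cubes of side `|v| ^ (-1 - τ)` (tool `Pool.Agent.N671.DA` of helper671).
-/

set_option autoImplicit false

namespace Pool.Agent.Results.MP_154526_nt.BestApproximations

open Filter Topology
open Pool.Agent.N671.DA (Near approx_tuples)
open Pool.Agent.N760.SC (BadTuples count_scales)
open Pool.Agent.Results.MP_154526_nt.ExceptionalTuples
  (mzv Letter index AdmissiblePattern IsConsequence exceptional)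
open Pool.Agent.Results.MP_154526_nt.MultiplicativeValues (OnlyConsequences only_mono exceptional_eq pow_bound)

/-- one family of patterns and constants -/
lemma one {k r t : ℕ} (hk : 1 ≤ k) (w : Fin r → List (Letter k)) (hw : ∀ i, AdmissiblePattern (w i)) (x : Fin t → ℂ)
    (D κ : ℕ) (C : ℝ) {n : ℕ} (β : Fin n → ℝ) {τ : ℝ} (hτ : 0 < τ) :
    ∃ E : Set (Fin k × Fin n → ℝ), dimH E ≤ ENNReal.ofReal (((k : ℝ) - 1) * n + (n + ((k : ℝ) - 1)) / (1 + τ)) ∧
      ∀ α, α ∉ E → ∀ c : ℝ, ∃ Q : ℝ, ∀ v : Fin k → ℤ, Q ≤ ‖v‖ → Near α β v (c * ‖v‖ ^ (-τ)) →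
        (fun i => (v i).natAbs) ∉ BadTuples κ (fun T s => ¬ OnlyConsequences w x D (C ^ T) s) := by
  have hall : ∀ j : ℕ, ∃ E : Set (Fin k × Fin n → ℝ),
      dimH E ≤ ENNReal.ofReal (((k : ℝ) - 1) * n + (n + ((k : ℝ) - (1 - 1 / ((j : ℝ) + 1)))) / (1 + τ)) ∧
      ∀ α, α ∉ E → ∀ c : ℝ, ∃ Q : ℝ, ∀ v : Fin k → ℤ, Q ≤ ‖v‖ → Near α β v (c * ‖v‖ ^ (-τ)) →
        (fun i => (v i).natAbs) ∉ BadTuples κ (fun T s => ¬ OnlyConsequences w x D (C ^ T) s) := by
    intro j
    have hj : (0 : ℝ) < 1 / ((j : ℝ) + 1) := by positivity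
    obtain ⟨K, hK⟩ := ExceptionalTuples.result t w hw D (2 * κ)
    obtain ⟨N₁, hN₁⟩ := hK ((max |C| 1) ^ 2) x
    obtain ⟨C₀, hC₀, hcount⟩ := count_scales hk κ (fun T s => ¬ OnlyConsequences w x D (C ^ T) s)
      (fun N s => ¬ OnlyConsequences w x D (((max |C| 1) ^ 2) ^ N) s)
      (fun N T s h1 h2 h3 h4 => h3 (only_mono w x D (pow_bound C h2.le) s h4))
      ⟨K, N₁, fun N hN => by
        rw [exceptional_eq]
        exact hN₁ N hN⟩ (1 / ((j : ℝ) + 1)) hj
    obtain ⟨E, hE, hE2⟩ := approx_tuples (m := n) hk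
      (BadTuples κ (fun T s => ¬ OnlyConsequences w x D (C ^ T) s)) (c₀ := 1 - 1 / ((j : ℝ) + 1)) (C₀ := C₀)
      (by linarith) (fun T hT => by
        have h := hcount T hT
        have hfin : {s : Fin k → ℕ | s ∈ BadTuples κ (fun T s => ¬ OnlyConsequences w x D (C ^ T) s) ∧
            ∀ i, s i ≤ T}.Finite := by
          refine (Set.Finite.pi' (t := fun _ : Fin k => Set.Iic T) fun _ => Set.finite_Iic _).subset ?_
          intro s hs j
          exact hs.2 j
        have hsub : {s : Fin k → ℕ | (∀ i, 2 ≤ s i ∧ s i ≤ T) ∧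
            s ∈ BadTuples κ (fun T s => ¬ OnlyConsequences w x D (C ^ T) s)} ⊆
            {s : Fin k → ℕ | s ∈ BadTuples κ (fun T s => ¬ OnlyConsequences w x D (C ^ T) s) ∧ ∀ i, s i ≤ T} :=
          fun s hs => ⟨hs.2, fun i => (hs.1 i).2⟩
        refine le_trans (Nat.cast_le.2 (Set.ncard_le_ncard hsub hfin)) (h.trans (le_of_eq ?_))
        congr 2
        ring) β hτ
    refine ⟨E, hE, fun α hα c => ?_⟩
    obtain ⟨Q, hQ⟩ := hE2 α hα c
    exact ⟨Q, fun v hv h1 => (hQ v hv h1).2⟩
  choose E hE hE2 using hall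
  have hlim : Tendsto (fun j : ℕ => ENNReal.ofReal (((k : ℝ) - 1) * n +
      (n + ((k : ℝ) - (1 - 1 / ((j : ℝ) + 1)))) / (1 + τ))) atTop
      (𝓝 (ENNReal.ofReal (((k : ℝ) - 1) * n + (n + ((k : ℝ) - (1 - 0))) / (1 + τ)))) :=
    ENNReal.tendsto_ofReal ((((((tendsto_one_div_add_atTop_nhds_zero_nat.const_sub 1).const_sub
      (k : ℝ)).const_add (n : ℝ)).div_const (1 + τ)).const_add (((k : ℝ) - 1) * n)))
  rw [sub_zero] at hlim
  refine ⟨⋂ j, E j, ge_of_tendsto' hlim fun j => (dimH_mono (Set.iInter_subset _ j)).trans (hE j),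
    fun α hα c => ?_⟩
  rw [Set.mem_iInter] at hα
  push Not at hα
  obtain ⟨j, hj⟩ := hα
  exact hE2 j α hj c

/-- the data: the patterns, the constants, the degree, `κ` and `C` -/
abbrev Data (k : ℕ) (Z : Set ℂ) : Type :=
  (Σ r : ℕ, Fin r → List (Letter k)) × (Σ t : ℕ, Fin t → Z) × ℕ × ℕ × ℕ

/-- **Multiple zeta values at best approximation vectors.** Let `Z` be a countable set of complex numbers, `k ≥ 1`,
`β ∈ ℝ^n` and `τ > 0`. For all real matrices `α` with `k` rows and `n` columns outside ONE set of Hausdorff dimension at most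
`(k - 1) n + (n + k - 1) / (1 + τ)`, for all admissible patterns `w_1, ..., w_r` in `k` variables, all `x_1, ..., x_t` in `Z`,
all `D`, `κ`, `C` and `c`, for all large integer vectors `v` with `‖(v α)_j - β_j‖ ≤ c |v| ^ (-τ)` for all `j` and all `T ≥ 1`
with `T ≤ |v_i| ≤ κ T` for all `i`: every polynomial relation of degree at most `D` with integer coefficients of absolute
value at most `C ^ T` between the `x_j` and the multiple zeta values of the patterns at `(|v_1|, ..., |v_k|)` is a
consequence of the stuffle product and of the algebraic relations between the `x_j` and the multiple zeta values of the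
fronts. -/
theorem result (Z : Set ℂ) (hZ : Z.Countable) {k : ℕ} (hk : 1 ≤ k) {n : ℕ} (β : Fin n → ℝ) {τ : ℝ} (hτ : 0 < τ) :
    ∃ E : Set (Fin k × Fin n → ℝ), dimH E ≤ ENNReal.ofReal (((k : ℝ) - 1) * n + (n + ((k : ℝ) - 1)) / (1 + τ)) ∧
      ∀ α, α ∉ E → ∀ {r t : ℕ} (w : Fin r → List (Letter k)) (x : Fin t → ℂ) (D κ : ℕ) (C c : ℝ),
        (∀ i, AdmissiblePattern (w i)) → (∀ i, x i ∈ Z) →
        ∃ Q : ℝ, ∀ v : Fin k → ℤ, Q ≤ ‖v‖ → Near α β v (c * ‖v‖ ^ (-τ)) → ∀ T : ℕ, 1 ≤ T →
          (∀ i, T ≤ (v i).natAbs ∧ (v i).natAbs ≤ κ * T) →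
          OnlyConsequences w x D (C ^ T) (fun i => (v i).natAbs) := by
  haveI : Countable Z := hZ.to_subtype
  have key : ∀ q : Data k Z, ∃ E : Set (Fin k × Fin n → ℝ),
      dimH E ≤ ENNReal.ofReal (((k : ℝ) - 1) * n + (n + ((k : ℝ) - 1)) / (1 + τ)) ∧
      ∀ α, α ∉ E → ∀ c : ℝ, (∀ i, AdmissiblePattern (q.1.2 i)) → ∃ Q : ℝ, ∀ v : Fin k → ℤ, Q ≤ ‖v‖ →
        Near α β v (c * ‖v‖ ^ (-τ)) → (fun i => (v i).natAbs) ∉ BadTuples q.2.2.2.1 (fun T s =>
          ¬ OnlyConsequences q.1.2 (fun i => ((q.2.1.2 i : Z) : ℂ)) q.2.2.1 ((q.2.2.2.2 : ℝ) ^ T) s) := by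
    intro q
    by_cases hw : ∀ i, AdmissiblePattern (q.1.2 i)
    · obtain ⟨E, hE, hE2⟩ := one hk q.1.2 hw (fun i => ((q.2.1.2 i : Z) : ℂ)) q.2.2.1 q.2.2.2.1
        (q.2.2.2.2 : ℝ) β hτ
      exact ⟨E, hE, fun α hα c _ => hE2 α hα c⟩
    · exact ⟨∅, by rw [dimH_empty]; exact bot_le, fun α _ c h => absurd h hw⟩
  choose E hE hE2 using key
  refine ⟨⋃ q, E q, ?_, fun α hα {r t} w x D κ C c hw hx => ?_⟩
  · rw [dimH_iUnion]
    exact iSup_le hE
  · rw [Set.mem_iUnion] at hα
    push Not at hα
    obtain ⟨C', hC'⟩ := exists_nat_ge |C|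
    obtain ⟨Q, hQ⟩ := hE2 (⟨r, w⟩, ⟨t, fun i => ⟨x i, hx i⟩⟩, D, κ, C') α (hα _) c hw
    refine ⟨Q, fun v hv h1 T hT h2 => ?_⟩
    have h3 := hQ v hv h1
    have h4 : OnlyConsequences w x D ((C' : ℝ) ^ T) (fun i => (v i).natAbs) := by
      by_contra hcon
      exact h3 ⟨T, hT, h2, hcon⟩
    refine only_mono w x D ?_ _ h4
    calc C ^ T ≤ |C ^ T| := le_abs_self _
      _ = |C| ^ T := abs_pow C T
      _ ≤ (C' : ℝ) ^ T := pow_le_pow_left₀ (abs_nonneg C) hC' T

end Pool.Agent.Results.MP_154526_nt.BestApproximations
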