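import Pool.Agent.N628.CMT.Gen
import Pool.Agent.Results.MP_154526_nt.MultiplicativeValues

/-!
# MP_154526_nt: multiple zeta values with arguments near all the multiples of Carmichael's function

A pattern in `k` variables is a list of letters `b + u_1 s_1 + ... + u_k s_k` with natural numbers `b`, `u_j`; at a
tuple `s` of natural numbers it gives an index. The first letters may be constant, of arbitrary weight, such as in
`ζ(5, 1, s_1, 3, s_1 + s_2)`. Let `w_1, ..., w_r` be admissible patterns in `k` variables and `x_1, ..., x_t` arbitrary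
complex numbers, for instance `π`, `log 2`, or arbitrary multiple zeta values.

Let `B ≥ 1`, `B (k - 1) < k`; for `k = 1` every `B` is allowed. We prove: for all `k`-tuples `m` of positive integers up to
`N` but `N^k / (log N)^U`, for EVERY tuple `v` of multiples `v_i ≤ N^B` of Carmichael's function `λ(m_i)` (the exponent of
the group of the units modulo `m_i`), for ALL tuples `s = (a_i v_i + b_i)` with integers `a_i ≠ 0`, `|a_i|, |b_i| ≤ v_l^η`
for some `l`, and all `T` with `T ≤ s_i ≤ κ T` for all `i`, EVERY polynomial relation of degree at most `D` with integer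
coefficients of absolute value at most `C ^ T` between the `x_j` and the multiple zeta values `ζ(w_1(s)), ..., ζ(w_r(s))`
is a consequence of the stuffle product and of the algebraic relations between the `x_j` and the multiple zeta values of
the fronts (the constant first letters of the patterns).

The theorem `ExceptionalTuples` of this page (helper599) bounds the number of the exceptional tuples in `[N, κ N] ^ k` by
`K N ^ (k - 1)`. But a single `v ≤ N^B` can be a multiple of `λ(m)` for more than `N^(1 - ε)` numbers `m ≤ N` (popular
values), and all multiples `v_i` of `λ(m_i)` up to `N^B`, with all their windows, are considered at once. So this does not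
follow from the number of the exceptional tuples. The proof uses the tool `N790/CM` of helper790 in the form `N628/CMT`.
-/

set_option autoImplicit false

namespace Pool.Agent.Results.MP_154526_nt.CarmichaelMultiples

open Pool.Agent.N790.CM (FewTimes Carries fewTimes_pred carries_carmichael)
open Pool.Agent.N628.CMT (NearMultiple powers)
open Pool.Agent.Results.MP_154526_nt.ExceptionalTuples
  (mzv Letter index AdmissiblePattern IsConsequence exceptional)
open Pool.Agent.Results.MP_154526_nt.MultiplicativeValues (OnlyConsequences only_mono exceptional_eq)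

/-- Let `k ≥ 1`, `B ≥ 1`, `B (k - 1) < k`. There is `η > 0` such that for all admissible patterns `w_1, ..., w_r` in `k`
variables, all `D`, `κ`, `C`, all complex numbers `x_1, ..., x_t`, all functions `F_1, ..., F_k` which take each positive
value at most `T'` times at the primes, and all `U`, for all large `N` and all but at most `N^k / (log N)^U` of the tuples
`m` of integers in `[1, N]`: for ALL `v` with `1 ≤ v_i ≤ N^B` and `F_i(p) ∣ v_i` for all primes `p > exp (√(log N))` which
divide `m_i` exactly once, for ALL tuples `s` of natural numbers `s_i = a_i v_i + b_i` with integers `a_i ≠ 0`,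
`|a_i|, |b_i| ≤ v_l^η` for some `l`, and all `T ≥ 1` with `T ≤ s_i ≤ κ T` for all `i`, every polynomial relation of degree
at most `D` with integer coefficients of absolute value at most `C ^ T` between the `x_j` and the multiple zeta values
`ζ(w_i(s))` is a consequence of the stuffle product and of the algebraic relations between the `x_j` and the multiple zeta
values of the fronts. The function `F(p) = p - 1` takes each value at most once, and every multiple `v` of Carmichael's
function `λ(m)` is divisible by `p - 1` for all primes `p ∣ m`. -/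
theorem result :
    (∀ k : ℕ, 1 ≤ k → ∀ B : ℝ, 1 ≤ B → B * ((k : ℝ) - 1) < k → ∃ η : ℝ, 0 < η ∧
      ∀ (r t : ℕ) (w : Fin r → List (Letter k)), (∀ i, AdmissiblePattern (w i)) → ∀ (D κ : ℕ) (C : ℝ) (x : Fin t → ℂ)
      (T' : ℕ) (F : Fin k → ℕ → ℕ), (∀ i, FewTimes (F i) T') → ∀ U : ℕ, ∃ N₀ : ℕ, ∀ N : ℕ, N₀ ≤ N →
      ({m : Fin k → ℕ | (∀ i, 1 ≤ m i ∧ m i ≤ N) ∧ ¬ ∀ v : Fin k → ℕ, (∀ i, 1 ≤ v i ∧ (v i : ℝ) ≤ (N : ℝ) ^ B ∧
        Carries (F i) (Real.exp √(Real.log N)) (m i) (v i)) → ∀ (s : Fin k → ℕ) (T : ℕ), 1 ≤ T →
        (∀ i, T ≤ s i ∧ s i ≤ κ * T) → NearMultiple η v s → OnlyConsequences w x D (C ^ T) s}.ncard : ℝ) ≤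
        (N : ℝ) ^ k / Real.log N ^ U) ∧
    FewTimes (fun p => p - 1) 1 ∧
    ∀ (y : ℝ) (m v : ℕ), ArithmeticFunction.carmichael m ∣ v → Carries (fun p => p - 1) y m v := by
  refine ⟨fun k hk B hB hBk => ?_, fewTimes_pred, carries_carmichael⟩
  obtain ⟨η, hη, h⟩ := powers hk hB hBk
  refine ⟨η, hη, fun r t w hw D κ C x T' F hF U => ?_⟩
  obtain ⟨N₀, hN₀⟩ := h (fun H s => ¬ OnlyConsequences w x D H s)
    (fun H H' s h1 h2 h3 => h2 (only_mono w x D h1 s h3)) (fun κ' => by
      obtain ⟨K, hK⟩ := ExceptionalTuples.result t w hw D κ'
      refine ⟨K, fun C' => ?_⟩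
      obtain ⟨N₀, hN₀⟩ := hK C' x
      exact ⟨N₀, fun N hN => by
        rw [exceptional_eq]
        exact hN₀ N hN⟩) κ C T' F hF U
  refine ⟨N₀, fun N hN => le_trans (le_of_eq ?_) (hN₀ N hN)⟩
  simp only [not_not]

end Pool.Agent.Results.MP_154526_nt.CarmichaelMultiples
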