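import Pool.Agent.N251.LF.DigitThin
import Pool.Agent.L7h69.MZ.One

/-!
# MP_154526_nt: multiple zeta values with arguments near the values of generic linear forms

A pattern in one variable is a list of letters `b + u s` with natural numbers `b`, `u`; at a natural number `s` it gives an
index. The first letters may be constant, of arbitrary weight, such as in `ζ(5, 1, s, 3, 2 s + 1)`. Let `Z` be a countable
set of complex numbers, for instance the field generated by `π`, `log 2` and all multiple zeta values.

Let `v_i`, `i` in a countable set, be vectors in `ℝ^k`, `O(X^(τ + ε))` of them of norm at most `X` for every `ε > 0`: for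
instance the vectors `(b_1^(n_1), …, b_k^(n_k))`, `b_j > 1`, for all `n_1, …, n_k`, with `τ = 0`, or `(1, n, …, n^d)` with
`τ = 1 / d`. Let `θ < 1`. We prove: for all real vectors `α` outside ONE set of Hausdorff dimension at most
`k - 1 + τ / (1 - θ)`, for all families `w_1, ..., w_r` of admissible patterns in one variable, all `x_1, ..., x_t` in `Z`, all
`D`, `C` and `c`, for all but finitely many `i`, for ALL natural numbers `s ≥ 1` with `|s - α · v_i| ≤ c ‖v_i‖^θ`, EVERY
polynomial relation of degree at most `D` with integer coefficients of absolute value at most `C ^ s` between the `x_j` and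
the multiple zeta values `ζ(w_1(s)), ..., ζ(w_r(s))` is a consequence of the stuffle product and of the algebraic relations
between the `x_j` and the multiple zeta values of the fronts (the constant first letters of the patterns). The bound for the
dimension is less than `k` if `τ + θ < 1`. So for almost all real polynomials `f` of degree at most `d ≥ 2` and all but
finitely many `n` all the integers `s ≥ 1` within `n^(d θ)` of `f(n)`, `θ < 1 - 1 / d`, are such arguments, and for almost all
real `α_1, …, α_k` all the integers near `α_1 2^(n_1) + ⋯ + α_k 2^(n_k)`, for all but finitely many `(n_1, …, n_k)`.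

The theorem `ArgumentsAlongRealTuples` of this page (helper734) treats the multiples `v_n ξ` of a real vector `ξ`. Proof:
the set of the `α` with an exceptional argument in the window of `v_i` is covered by small cubes (`Pool.Agent.N251.LF`).
-/

set_option autoImplicit false

namespace Pool.Agent.Results.MP_154526_nt.GenericLinearForms

open Finset
open Pool.Agent.N251.LF (Fam Sq linear_good_nat)
open Pool.Agent.Results.MP_154526_nt.ExceptionalTuples
  (mzv Letter index AdmissiblePattern IsConsequence)
open Pool.Agent.Results.MP_154526_nt.MultiplicativeValues (OnlyConsequences)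
open Pool.Agent.L7h69.MZ (thin Data GoodFor good_of)

/-- **Multiple zeta values near the values of generic linear forms.** Let `Z` be a countable set of complex numbers, `v` a
family of vectors in `ℝ^k` of exponent `τ ≥ 0` and `θ < 1`. For all real vectors `α` outside ONE set of Hausdorff dimension
at most `k - 1 + τ / (1 - θ)`, for all admissible patterns `w_1, ..., w_r` in one variable, all `x_1, ..., x_t` in `Z`, all
`D`, `C` and `c`, for all but finitely many `i`: for ALL natural numbers `s ≥ 1` with `|s - ∑ α_j v_(i,j)| ≤ c ‖v_i‖^θ`, every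
polynomial relation of degree at most `D` with integer coefficients of absolute value at most `C ^ s` between the `x_j` and
the multiple zeta values `ζ(w_i(s))` is a consequence of the stuffle product and of the algebraic relations between the
`x_j` and the multiple zeta values of the fronts. The vectors `(1, n, …, n^d)` are a family of exponent `1 / d`, the
`(b_1^(n_1), …, b_k^(n_k))` with `b_j > 1` one of exponent `0`, the `(n_1^(a_1), …, n_k^(a_k))` with `a_j > 0` one of exponent
`∑ 1 / a_j`, and the `(u_1(n_1), …, u_k(n_k))` one of exponent `∑ τ_j`, if the sequences `u_j` have exponents `τ_j`. -/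
theorem result :
    (∀ Z : Set ℂ, Z.Countable → ∀ (k : ℕ) (ι : Type) (v : ι → Fin k → ℝ) (τ θ : ℝ), Fam v τ → 0 ≤ τ → θ < 1 →
      ∃ E : Set (Fin k → ℝ), dimH E ≤ ENNReal.ofReal ((k : ℝ) - 1 + τ / (1 - θ)) ∧
        ∀ α, α ∉ E → ∀ {r t : ℕ} (w : Fin r → List (Letter 1)) (x : Fin t → ℂ) (D : ℕ) (C c : ℝ),
          (∀ i, AdmissiblePattern (w i)) → (∀ i, x i ∈ Z) →
          {i | ¬ ∀ s : ℕ, 1 ≤ s → |(s : ℝ) - ∑ j, α j * v i j| ≤ c * ‖v i‖ ^ θ →
            OnlyConsequences w x D (C ^ s) (fun _ => s)}.Finite) ∧
    (∀ d : ℕ, 1 ≤ d → Fam (fun (n : ℕ) (j : Fin (d + 1)) => (n : ℝ) ^ (j : ℕ)) (1 / d)) ∧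
    (∀ (k : ℕ) (b : Fin k → ℝ), (∀ j, 1 < b j) → Fam (fun (n : Fin k → ℕ) (j : Fin k) => b j ^ n j) 0) ∧
    (∀ (k : ℕ) (a : Fin k → ℝ), (∀ j, 0 < a j) →
      Fam (fun (n : Fin k → ℕ) (j : Fin k) => (n j : ℝ) ^ a j) (∑ j, 1 / a j)) ∧
    ∀ (k : ℕ) (u : Fin k → ℕ → ℝ) (τ : Fin k → ℝ), (∀ j, Sq (u j) (τ j)) →
      Fam (fun (n : Fin k → ℕ) (j : Fin k) => u j (n j)) (∑ j, τ j) := by
  classical
  refine ⟨fun Z hZ k ι v τ θ hv hτ hθ => ?_, Pool.Agent.N251.LF.examples⟩
  haveI : Countable Z := hZ.to_subtype
  have key : ∀ q : Data Z, ∃ E : Set (Fin k → ℝ), dimH E ≤ ENNReal.ofReal ((k : ℝ) - 1 + τ / (1 - θ)) ∧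
      ∀ α, α ∉ E → (∀ i, AdmissiblePattern (q.1.2 i)) → ∀ c : ℝ,
        {i | ¬ ∀ s : ℕ, 1 ≤ s → True → |(s : ℝ) - ∑ j, α j * v i j| ≤ c * ‖v i‖ ^ θ → GoodFor Z q s}.Finite := by
    intro q
    by_cases hw : ∀ i, AdmissiblePattern (q.1.2 i)
    · obtain ⟨E, hE, hE2⟩ := linear_good_nat (fun _ => True) (GoodFor Z q) v (s := 0) le_rfl hτ hθ hv
        (fun ε hε => by
          obtain ⟨C₀, h⟩ := thin q.1.2 hw (fun i => ((q.2.1.2 i : Z) : ℂ)) q.2.2.1 (q.2.2.2 : ℝ) ε hε
          refine ⟨C₀, fun X hX => le_trans (le_of_eq ?_) (h X hX)⟩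
          congr 2
          ext s
          simp only [Set.mem_ofPred_eq, true_and]
          rfl)
      rw [zero_add] at hE
      exact ⟨E, hE, fun α hα _ c => hE2 α hα c⟩
    · exact ⟨∅, by rw [dimH_empty]; exact bot_le, fun α _ h => absurd h hw⟩
  choose E hE hE2 using key
  refine ⟨⋃ q, E q, ?_, fun α hα {r t} w x D C c hw hx => ?_⟩
  · rw [dimH_iUnion]
    exact iSup_le hE
  · rw [Set.mem_iUnion] at hα
    push Not at hα
    obtain ⟨C', hC'⟩ := exists_nat_ge |C|
    refine (hE2 (⟨r, w⟩, ⟨t, fun i => ⟨x i, hx i⟩⟩, D, C') α (hα _) hw c).subset ?_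
    intro i hi hgood
    exact hi fun s hs h1 => good_of Z w x hx D C hC' (hgood s hs trivial h1)

end Pool.Agent.Results.MP_154526_nt.GenericLinearForms
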