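import Mathlib
import Pool.Agent.L7h24.TS.FinR

/-!
# MP_154526_nt: all relations between the numbers `ζ(2, ..., 2, u)`

Let `U` be any finite set of words `u` in the letters `y_1, y_2, ...`. The multiple zeta values `ζ(2^n u)` (`n` letters `2`,
belonging to the largest summation variables, in front of `u ∈ U`) satisfy no linear relation for large `n` whose
coefficients are combinations of the `α^n`, `α > 0`, with polynomials in `n` as coefficients which are either of degree at
most one, with arbitrary real coefficients, or of any degree, with algebraic coefficients. More precisely such a linear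
form is at least `α^n n^{-B} ζ(2, ..., 2)` in absolute value, for every base `α` that occurs. Euler's relation
`(2 n + 2) (2 n + 3) ζ(2^{n + 1}) = 6 ζ(2) ζ(2^n)` shows that one cannot replace the degree one by two.

In particular, for fixed words `v_i` and fixed rational `q_{u,i}` a relation `Σ q_{u,i} ζ(v_i) ζ(2^n u) = 0` that holds for
infinitely many `n` is a consequence of relations between the fixed numbers `ζ(v_i)`: then `Σ_i q_{u,i} ζ(v_i) = 0` for
every `u`.

Proof. As `n → ∞`, `ζ(2^n u)` has an asymptotic expansion `Σ_k s_k(u) ζ(2^{n + k})`, where the rational numbers `s_k(u)` are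
defined by the expansion of the harmonic sum `H_u(m) = Σ_k s_k(u) H_{2^k}(m)`. Put `S_u = Σ_k s_k(u) (-1)^k z^{-2 k}`.
Multiplication of a harmonic sum by `1 / (m + 1)` acts on `S / z²` as `- coth(∂/2) z^{-1}`, where `exp ∂` is the shift
`z ↦ z + 1`, so multiplication by `m + 1` (which makes the letter `y_1`) acts as `- z tanh(∂/2)`. So the series of the words
are iterated sums and alternating sums of powers of `1 / z`, and a difference algebra argument shows that those of the words
which do not begin with the letter `y_2` are linearly independent over the rational functions of `z` with real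
coefficients. So for real polynomials `p_u` of degree at most one, not all zero, there is a first `k` with
`Σ_u s_k(u) p_u ≠ 0`, and this term dominates, as `ζ(2^{n + 1}) / ζ(2^n)` is of the order `n^{-2}`. For algebraic
coefficients the transcendence of `π` is used.
-/

set_option autoImplicit false

namespace Pool.Agent.Results.MP_154526_nt.InsertedTwos

open Filter
open Pool.Agent.H447R2.MZ (Adm val)

/-- the multiple zeta value `ζ(l_1, ..., l_r)`: the sum over `m_1 > ... > m_r ≥ 1` of `∏ m_i ^ (- l_i)` -/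
noncomputable def mzv (l : List ℕ) : ℝ :=
  ∑' m : {m : Fin l.length → ℕ // StrictAnti m ∧ ∀ i, 0 < m i}, ∏ i, ((m.1 i : ℝ) ^ (l.get i))⁻¹

lemma mzv_eq {l : List ℕ} (hl : Adm l) : mzv l = val l := by
  have h1 := Pool.Agent.H447R2.MZ.hasSum_val l.length l.get (by rw [List.ofFn_get]; exact hl)
  rw [List.ofFn_get] at h1
  exact h1.tsum_eq

/-- **Theorem.** Let `U` be a finite set of words in positive integers, `J` a finite set of positive real numbers, and for
`α ∈ J`, `u ∈ U` let `p α u` be a real polynomial. For every `α ∈ J` let the `p α u`, `u ∈ U`, all be of degree at most one,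
or let all their coefficients be algebraic over `ℚ`. If `p α₀ u ≠ 0` for some `u ∈ U`, then for a natural number `B` and all
large `n`: `0 < α₀^n ζ(2^n) ≤ n^B |∑_{α ∈ J} ∑_{u ∈ U} α^n p_{α,u}(n) ζ(2^n u)|`. -/
theorem result (U : Finset (List ℕ)) (hU : ∀ u ∈ U, ∀ s ∈ u, 1 ≤ s)
    (J : Finset ℝ) (hJ : ∀ α ∈ J, 0 < α) (p : ℝ → List ℕ → Polynomial ℝ)
    (hp : ∀ α ∈ J, (∀ u ∈ U, (p α u).natDegree ≤ 1) ∨ ∀ u ∈ U, ∀ k, IsAlgebraic ℚ ((p α u).coeff k))
    (α₀ : ℝ) (hα₀ : α₀ ∈ J) (hne : ∃ u ∈ U, p α₀ u ≠ 0) :
    ∃ B : ℕ, ∀ᶠ n : ℕ in atTop, 0 < mzv (List.replicate n 2) ∧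
      α₀ ^ n * mzv (List.replicate n 2) ≤
        (n : ℝ) ^ B * |∑ α ∈ J, ∑ u ∈ U, α ^ n * (p α u).eval (n : ℝ) * mzv (List.replicate n 2 ++ u)| := by
  obtain ⟨B, hB⟩ := Pool.Agent.L7h24.OE.words_mixed U hU J hJ p hp α₀ hα₀ hne
  refine ⟨B, (hB.and (eventually_ge_atTop 1)).mono fun n hn => ?_⟩
  obtain ⟨hn, hn1⟩ := hn
  have h2 : ∀ s ∈ List.replicate n 2, 2 ≤ s := fun s hs => by rw [List.eq_of_mem_replicate hs]
  have hZ : mzv (List.replicate n 2) = Pool.Agent.L7h24.CS.Z n := by
    rw [mzv_eq (Pool.Agent.L7h24.CS.adm_of_ge h2)]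
    rfl
  have hs : ∀ u ∈ U, mzv (List.replicate n 2 ++ u) = val (Pool.Agent.L7h24.CS.w2 n ++ u) := by
    intro u hu
    refine mzv_eq ⟨fun s hs => ?_, fun a t h => ?_⟩
    · rcases List.mem_append.1 hs with hs | hs
      · exact le_trans (by norm_num) (h2 s hs)
      · exact hU u hu s hs
    · obtain ⟨k, rfl⟩ : ∃ k, n = k + 1 := ⟨n - 1, by omega⟩
      rw [List.replicate_succ, List.cons_append] at h
      rw [← (List.cons_eq_cons.1 h).1]
  rw [hZ]
  refine ⟨Pool.Agent.L7h24.CS.Z_pos n, hn.trans (le_of_eq ?_)⟩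
  congr 2
  exact Finset.sum_congr rfl fun α _ => Finset.sum_congr rfl fun u hu => by rw [hs u hu]

end Pool.Agent.Results.MP_154526_nt.InsertedTwos
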